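import Pool.Agent.R351.GD.J.Win

/-!
# The modular Schanuel conjecture for isogeny classes: relations of growing degree in windows

Let `j` be the modular invariant, `v_1, …, v_k` points of the upper half-plane for which the numbers `n_i = j(v_i)` are
distinct integers, and `z_i = (a_i v_i + b_i) / (c_i v_i + d_i)` any points equivalent to them under `GL_2^+(ℚ)`. The numbers
`j(z_i)` are algebraic; unless `z_i` is a CM point or two of the points are equivalent, the modular Schanuel conjecture
predicts that `z_1, …, z_k` are algebraically independent.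

We prove: for all `q`, `k` there is a number `C` such that for all `δ` and all `N`, `H` with `(H + 2)^((δ + 2)^C) ≤ N`, all
complex numbers `w_1, …, w_q` and each sign `ε` there is a set `S` of at most `q + 2` integers such that for all distinct
integers `n_1, …, n_k` outside `S` with `N ≤ ε n_i ≤ N + H` and all points `z_i` equivalent to points `v_i` with
`j(v_i) = n_i` (there is no bound for the degrees of the isogenies, or for the coefficients of the matrices) every relation
of degree at most `δ` between `z_1, …, z_k`, with coefficients which are polynomials in `2 π i, w_1, …, w_q` over a number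
field of degree at most `δ`, is trivial: the polynomial is zero after the substitution of the numbers
`2 π i, w_1, …, w_q`. Here `δ` may grow, up to a fixed power of `log N / log (H + 2)`, and the number of exceptions does not
depend on `δ`. In particular (`q = 0`) outside two integers of the window there is no relation of degree at most `δ` between
`z_1, …, z_k` and `π`, over any number field of degree at most `δ`, of any height.

The proof follows the starting library (`MP_47914d_nt.IsogenyWindows`, project of helper120; parts by helper109, helper167,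
helper170, helper25, helper239, helper259, helper317, helper340, helper606, helper664, helper929), with polynomial bounds in
`δ` at every step (`Pool.Agent.R351.GD`): G-systems of monomials, values of G-functions, elimination of the constants by
Hilbert functions.
-/

set_option autoImplicit false

namespace Pool.Agent.Results.MP_47914d_nt.GrowingDegreeIsogenies

/-- the normalised Eisenstein series of weight `4` -/
noncomputable def E4 (τ : ℂ) : ℂ :=
  1 + 240 * ∑' m : ℕ, ((ArithmeticFunction.sigma 3 (m + 1) : ℕ) : ℂ) *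
    Complex.exp (2 * (Real.pi : ℂ) * Complex.I * ((m : ℂ) + 1) * τ)

/-- the normalised Eisenstein series of weight `6` -/
noncomputable def E6 (τ : ℂ) : ℂ :=
  1 - 504 * ∑' m : ℕ, ((ArithmeticFunction.sigma 5 (m + 1) : ℕ) : ℂ) *
    Complex.exp (2 * (Real.pi : ℂ) * Complex.I * ((m : ℂ) + 1) * τ)

/-- the modular invariant `j = q⁻¹ + 744 + 196884 q + ⋯` -/
noncomputable def J (τ : ℂ) : ℂ := 1728 * E4 τ ^ 3 / (E4 τ ^ 3 - E6 τ ^ 2)

/-- `z` is equivalent under `GL_2^+(ℚ)` to a point `v` of the upper half-plane with `j(v) = t`. -/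
def Isogenous (t : ℤ) (z : ℂ) : Prop :=
  ∃ v : ℂ, 0 < v.im ∧ J v = t ∧ ∃ a b c d : ℚ, 0 < a * d - b * c ∧ z = ((a : ℂ) * v + b) / ((c : ℂ) * v + d)

/-- The numbers `2 π i, w_1, …, w_q`. -/
noncomputable def constants {q : ℕ} (w : Fin q → ℂ) : Option (Fin q) → ℂ := fun o => o.elim (2 * Real.pi * Complex.I) w

/-- The numbers `2 π i, w_1, …, w_q` and `k` variables. -/
noncomputable def generic {q k : ℕ} (w : Fin q → ℂ) : Option (Fin q) ⊕ Fin k → MvPolynomial (Fin k) ℂ :=
  Sum.elim (fun o => MvPolynomial.C (constants w o)) MvPolynomial.X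

lemma J_eq : J = Pool.Agent.TH21.MS.jj := by
  have h4 : E4 = Pool.Agent.TH21.MS.E4 := funext Pool.Agent.Y120.J.E4_same
  have h6 : E6 = Pool.Agent.TH21.MS.E6 := funext Pool.Agent.Y120.J.E6_same
  funext τ
  unfold J Pool.Agent.TH21.MS.jj
  rw [h4, h6]

lemma constants_eq {q : ℕ} (w : Fin q → ℂ) : constants w = Pool.Agent.Y120.K.wo w := by
  funext o
  rcases o with _ | o <;> rfl

lemma sign {ε : ℤ} (hε : ε = 1 ∨ ε = -1) : ∃ s : Bool, Pool.Agent.Y120.J.si s = ε := by
  rcases hε with h | h
  · exact ⟨true, by rw [h]; rfl⟩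
  · exact ⟨false, by rw [h]; rfl⟩

/-- For all `q`, `k` there is `C` such that for all `δ`, `N`, `H` with `(H + 2)^((δ + 2)^C) ≤ N`, all `w_1, …, w_q` and
`ε = ±1` there is a set `S` of at most `q + 2` integers such that for all distinct integers `n_1, …, n_k` outside `S` with
`N ≤ ε n_i ≤ N + H` and all `z_i` isogenous to points with invariants `n_i` every polynomial `P` of degree at most `δ` over a
number field `K` of degree at most `δ` which vanishes at `2 π i, w_1, …, w_q, z_1, …, z_k` is zero after the substitution of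
`2 π i, w_1, …, w_q`. -/
theorem result (q k : ℕ) : ∃ C : ℕ, ∀ δ N H : ℕ, (H + 2) ^ ((δ + 2) ^ C) ≤ N →
    ∀ (w : Fin q → ℂ) (ε : ℤ), ε = 1 ∨ ε = -1 →
    ∃ S : Finset ℤ, S.card ≤ q + 2 ∧ ∀ n : Fin k → ℤ, Function.Injective n →
      (∀ i, (N : ℤ) ≤ ε * n i ∧ ε * n i ≤ N + H ∧ n i ∉ S) →
      ∀ z : Fin k → ℂ, (∀ i, Isogenous (n i) (z i)) →
      ∀ K : IntermediateField ℚ ℂ, FiniteDimensional ℚ K → Module.finrank ℚ K ≤ δ →
      ∀ P : MvPolynomial (Option (Fin q) ⊕ Fin k) K, P.totalDegree ≤ δ →
        MvPolynomial.aeval (Sum.elim (constants w) z) P = 0 → MvPolynomial.aeval (generic (k := k) w) P = 0 := by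
  obtain ⟨E, ⟨C, hC⟩, hE⟩ := Pool.Agent.R351.GD.winI_exp q k
  refine ⟨C, fun δ N H hN w ε hε => ?_⟩
  obtain ⟨s, hs⟩ := sign hε
  obtain ⟨S, hSc, hS⟩ := hE δ N H ((Nat.pow_le_pow_right (by omega) (hC δ)).trans hN) w s
  refine ⟨S, hSc, fun n hn1 hnS z hz K hK hKD P hP hP0 => ?_⟩
  choose v hv hvn a b c d hdet hzv using hz
  rw [hs] at hS
  rw [constants_eq] at hP0
  have h1 := hS n hn1 hnS (fun i => ⟨v i, hv i⟩) (fun i => by
    have h1 := hvn i
    rw [J_eq] at h1
    exact h1) z (fun i => ⟨a i, b i, c i, d i, (hdet i).ne', hzv i⟩) K hK hKD P hP hP0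
  have h2 : MvPolynomial.aeval (generic (k := k) w) P = Pool.Agent.Y120.K.fr w P := by
    unfold generic Pool.Agent.Y120.K.fr
    rw [constants_eq]
  rw [h2]
  apply MvPolynomial.funext
  intro u
  rw [map_zero, Pool.Agent.Y120.K.fr_eval]
  exact h1 u

end Pool.Agent.Results.MP_47914d_nt.GrowingDegreeIsogenies
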