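import Pool.Agent.R437.Met.TupR
import Pool.Agent.Results.MP_47914d_nt.RealFieldsPointsNomesJets

/-!
# Points `z`, nomes and values `j (z)`, `j' (z)`, `j'' (z)` for `z = i s x ^ ρ`, `x` near a given point

Let `0 < ρ_1 < … < ρ_m` be real numbers, let `s_(i 1), …, s_(i p)` be positive real numbers which are linearly
independent over `ℚ` for every `i`, and let `1, σ_1, …, σ_r` be linearly independent over `ℚ`. For `n`-tuples
`(x_1, …, x_n)` of positive elements of a real number field `k` we consider the `m n p` points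
`z = i s_(i j) x_l ^ ρ_i` of the upper half-plane, and the numbers `π`, `log x_l`, `x_l ^ σ_i`, and
`exp (-2πi z)`, `j (z)`, `j' (z)`, `j'' (z)` for all these points. For every `η > 0` and all `ξ` in
`(0, ∞) ^ n` outside a set of Hausdorff dimension at most `2 (n - 1) / η` the tuples `x` in `k ^ n` of large
height `T` with `|ξ_l - x_l| ≤ C T ^ (-η)` have the following property: all these numbers together satisfy no
polynomial relation of degree at most `d` with coefficients in `k` of height at most `T ^ A`, not even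
approximately, up to `T ^ (-B)`. For `n = 1` the exceptional set has dimension zero, for every `η > 0`. The
starting file `RealFieldsPointsNomesJets` bounds the number of the exceptional `x` of height at most `T` by
`C T ^ ε N(T) ^ (n - 1)`, where `N(T)` is the number of elements of `k` of height at most `T`.
-/

set_option autoImplicit false

namespace Pool.Agent.Results.MP_47914d_nt.NearEveryPoint

open Pool.Agent.R437.Met

/-- the normalised Eisenstein series of weight `4` -/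
noncomputable def E4 (τ : ℂ) : ℂ :=
  1 + 240 * ∑' m : ℕ, ((ArithmeticFunction.sigma 3 (m + 1) : ℕ) : ℂ) *
    Complex.exp (2 * (Real.pi : ℂ) * Complex.I * τ) ^ (m + 1)

/-- the normalised Eisenstein series of weight `6` -/
noncomputable def E6 (τ : ℂ) : ℂ :=
  1 - 504 * ∑' m : ℕ, ((ArithmeticFunction.sigma 5 (m + 1) : ℕ) : ℂ) *
    Complex.exp (2 * (Real.pi : ℂ) * Complex.I * τ) ^ (m + 1)

/-- the modular invariant `j = q⁻¹ + 744 + 196884 q + ⋯` -/
noncomputable def j (τ : ℂ) : ℂ := 1728 * E4 τ ^ 3 / (E4 τ ^ 3 - E6 τ ^ 2)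

/-- `exp (-2πi z), j (z), j' (z), j'' (z)` (complex derivatives) -/
noncomputable def jet (z : ℂ) : Fin 4 → ℂ :=
  ![Complex.exp (-(2 * (Real.pi : ℂ) * Complex.I * z)), j z, deriv j z, deriv (deriv j) z]

/-- the `(4 m p + r + 1) n + 1` numbers: `π`; for every `l ≤ n` the numbers `log x_l` and `x_l ^ σ_i`; and
`exp (-2πi z), j (z), j' (z), j'' (z)` at the points `z = i s_(i j) x_l ^ ρ_i` -/
noncomputable def numbers {k : Type} [Field k] (τ : k →+* ℝ) {r m p n : ℕ} (σ : Fin r → ℝ)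
    (ρ : Fin m → ℝ) (s : Fin m → Fin p → ℝ) (x : Fin n → k) :
    Option (Fin n × (Option (Fin r) ⊕ (Fin m × (Fin p × Fin 4)))) → ℂ
  | none => (Real.pi : ℂ)
  | some (l, Sum.inl none) => (Real.log (τ (x l)) : ℂ)
  | some (l, Sum.inl (some i)) => (((τ (x l) : ℝ) ^ σ i : ℝ) : ℂ)
  | some (l, Sum.inr (i, j, q)) => jet (Complex.I * ((s i j * (τ (x l) : ℝ) ^ ρ i : ℝ) : ℂ)) q

/-- Some nonzero polynomial with coefficients in `k` of height at most `T ^ A`, of degree at most `d` in each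
variable, takes at the `(4 m p + r + 1) n + 1` numbers a value of absolute value at most `T ^ (-B)`. -/
def Related {k : Type} [Field k] [NumberField k] (τ : k →+* ℝ) {r m p n : ℕ} (σ : Fin r → ℝ)
    (ρ : Fin m → ℝ) (s : Fin m → Fin p → ℝ) (d : ℕ) (A B T : ℝ) (x : Fin n → k) : Prop :=
  ∃ P : MvPolynomial (Option (Fin n × (Option (Fin r) ⊕ (Fin m × (Fin p × Fin 4))))) k, P ≠ 0 ∧
    (∀ i, P.degreeOf i ≤ d) ∧ (∀ e, Height.mulHeight₁ (P.coeff e) ≤ T ^ A) ∧
    ‖MvPolynomial.eval₂ (Complex.ofRealHom.comp τ) (numbers τ σ ρ s x) P‖ ≤ T ^ (-B)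

/-- **Tuples of elements of a real number field near a given point.** Let `k` be a number field with an
embedding `τ` in `ℝ`, `n ≥ 1`, `0 < ρ_1 < … < ρ_m`, let `1, σ_1, …, σ_r` be linearly independent over `ℚ`, let
the `s_(i j)` be positive and, for every `i`, linearly independent over `ℚ`. For every `η > 0` there is a set
`E` of Hausdorff dimension at most `2 (n - 1) / η` such that for all `ξ` in `(0, ∞) ^ n` outside `E`, all `d`
and `A` there is `B` such that for all `C` and all large `T`: for the `x` in `k ^ n` of heights at most `T`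
with `|ξ_l - τ(x_l)| ≤ C T ^ (-η)` for all `l` no nonzero polynomial with coefficients in `k` of height at
most `T ^ A`, of degree at most `d` in each variable, takes at the `(4 m p + r + 1) n + 1` numbers a value of
absolute value at most `T ^ (-B)`. -/
theorem result (k : Type) [Field k] [NumberField k] (τ : k →+* ℝ) (r m p n : ℕ) (hn : 1 ≤ n)
    (σ : Fin r → ℝ) (ρ : Fin m → ℝ) (s : Fin m → Fin p → ℝ) (hρ0 : ∀ i, 0 < ρ i) (hρ : StrictMono ρ)
    (hσ : ∀ (c0 : ℤ) (c : Fin r → ℤ), (c0 : ℝ) + ∑ i, (c i : ℝ) * σ i = 0 → c0 = 0 ∧ c = 0)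
    (hs0 : ∀ i j, 0 < s i j) (hs : ∀ i, ∀ c : Fin p → ℤ, ∑ j, (c j : ℝ) * s i j = 0 → c = 0)
    (η : ℝ) (hη : 0 < η) :
    ∃ E : Set (Fin n → ℝ), dimH E ≤ ENNReal.ofReal (2 * ((n : ℝ) - 1) / η) ∧
      ∀ ξ : Fin n → ℝ, (∀ l, 0 < ξ l) → ξ ∉ E → ∀ (d : ℕ) (A : ℝ), ∃ B : ℝ, ∀ C : ℝ, ∃ T₁ : ℝ,
        ∀ T : ℝ, T₁ ≤ T → ∀ x : Fin n → k,
          (∀ l, Height.mulHeight₁ (x l) ≤ T ∧ |ξ l - τ (x l)| ≤ C * T ^ (-η)) →
            ¬ Related τ σ ρ s d A B T x := by
  refine Tup.tuple_real k τ n hn (Set.Ioi 0) isOpen_Ioi Set.ordConnected_Ioi ⟨1, Set.mem_Ioi.2 one_pos⟩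
    (numbers τ σ ρ s) (fun a b hab hS d A ε hε => ?_) η hη
  have ha : 0 < a := hS ⟨le_rfl, hab.le⟩
  obtain ⟨D, B, C, h⟩ := RealFieldsPointsNomesJets.result k τ r m p n d hn σ ρ s hρ0 hρ hσ hs0 hs A a b
    ε ha hab hε
  refine ⟨B, C, fun T hT => ?_⟩
  obtain ⟨-, h1, h2⟩ := h T hT
  have hset : {x : Fin n → k | (∀ j, τ (x j) ∈ Set.Icc a b ∧ Height.mulHeight₁ (x j) ≤ T) ∧
      Tup.PolyRel (Complex.ofRealHom.comp τ) (numbers τ σ ρ s x) d A B T} =
      RealFieldsPointsNomesJets.Exceptional τ n d σ ρ s a b A B T := by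
    have heq : ∀ x : Fin n → k, numbers τ σ ρ s x = RealFieldsPointsNomesJets.numbers τ σ ρ s x := by
      intro x
      funext i
      rcases i with _ | ⟨l, (_ | i) | ⟨i, k, q⟩⟩
      · rfl
      · rfl
      · rfl
      · rfl
    ext x
    simp only [RealFieldsPointsNomesJets.Exceptional, Tup.PolyRel, Set.mem_ofPred_eq, heq]
  rw [hset]
  exact ⟨h1, h2⟩

end Pool.Agent.Results.MP_47914d_nt.NearEveryPoint
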