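import Pool.Agent.R349.Short2
import Pool.Agent.Y776.AxJ.Fun

/-!
# The modular Schanuel conjecture on arbitrary analytic curves: a bounded number of exceptions in small discs

For each `k = 1, …, n` let `τ_(k1), …, τ_(kp)`, `p = p_k`, be nonconstant analytic functions on a connected open set
`U_k` with values in the upper half-plane, such that `j(τ_(ki))` and `j(τ_(kl))` are algebraically independent over `ℂ` for
`i ≠ l`. There is no other condition: the `τ_(ki)` may be algebraic functions, but also inverse images of algebraic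
functions under `j`, or arbitrary transcendental functions.

For points `τ_1, …, τ_p` the modular Schanuel conjecture says that at least `p` of the `2 p` numbers `τ_i`, `j(τ_i)` are
algebraically independent if the points are not special and in different orbits of `GL₂⁺(ℚ)`; with derivatives, at
least `3 p` of the `4 p` numbers `τ_i, j(τ_i), j'(τ_i), j''(τ_i)`. We prove that `3 p` fixed functions among the `4 p`
functions `τ_(ki), j(τ_(ki)), j'(τ_(ki)), j''(τ_(ki))`, among them at least `p` of the `2 p` functions `τ_(ki)`,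
`j(τ_(ki))`, have this property in bounded degree and height at algebraic arguments `x`, with **at most `C` exceptions
in each disc of radius `T ^ (-δ)`**, `T` the height and `δ > 0` arbitrary: let `X_1, …, X_n` be finite sets of elements
`x` of a number field `F` of degree at most `m`, of height at most `T`, with images in compact sets `K_k`, each of the
`X_k` of diameter at most `T ^ (-δ)`; for instance all elements of `X_k` can be fractions with one fixed denominator
`T`. All but `C ∑_k ∏_(i ≠ k) |X_i|` of the tuples of `X_1 × … × X_n` are good, and there is a good one if all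
`|X_k| > C`; here `C` does not depend on `T`, `F` and the `X_k`. Good means that the `∑ 3 p_k` numbers satisfy no
polynomial relation, not even an approximate one, of degree at most `d` and height at most `T ^ A` whose coefficients
are combinations of given complex numbers `ξ_1, …, ξ_g`, and together with `π` no relation over `F`.

The proof uses an Ax-Schanuel theorem for `j` with derivatives, relative to countable fields of constants
(`Pool.Agent.Y776.AxJ.exists_loc`), and a determinant method for small discs (`Pool.Agent.R349.Gen.shortS`).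
-/

set_option autoImplicit false

open NumberField
open Pool.Agent

namespace Pool.Agent.Results.MP_47914d_nt.SmallDiscs

/-- The lattice `ℤ + ℤ τ`. -/
noncomputable def lattice (τ : ℂ) (h : 0 < τ.im) : PeriodPair where
  ω₁ := 1
  ω₂ := τ
  indep := (Y685.LL ⟨τ, h⟩).indep

/-- The modular invariant `j = 1728 g₂³ / (g₂³ - 27 g₃²)` on the upper half-plane. -/
noncomputable def j (τ : ℂ) : ℂ :=
  if h : 0 < τ.im then 1728 * (lattice τ h).g₂ ^ 3 / ((lattice τ h).g₂ ^ 3 - 27 * (lattice τ h).g₃ ^ 2) else 0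

/-- The names of the functions `τ_i`, `j(τ_i)`, `j'(τ_i)`, `j''(τ_i)`. -/
inductive Name (p : ℕ) : Type
  | tau : Fin p → Name p
  | j : Fin p → Name p
  | dj : Fin p → Name p
  | ddj : Fin p → Name p

/-- The names of the functions `τ_i` and `j(τ_i)`. -/
def Basic {p : ℕ} (a : Name p) : Prop := ∃ i, a = Name.tau i ∨ a = Name.j i

/-- The values `τ_i(z)`, `j(τ_i(z))`, `j'(τ_i(z))`, `j''(τ_i(z))` (complex derivatives of `j`). -/
noncomputable def value {p : ℕ} (τ : Fin p → ℂ → ℂ) (z : ℂ) : Name p → ℂ
  | Name.tau i => τ i z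
  | Name.j i => j (τ i z)
  | Name.dj i => deriv j (τ i z)
  | Name.ddj i => deriv (deriv j) (τ i z)

/-- An analytic curve in `ℍ^p`, on no proper subvariety given by a relation between two of the `j(τ_i)` (with
constant coefficients), and with nonconstant coordinates. -/
structure Curve (U : Set ℂ) {p : ℕ} (τ : Fin p → ℂ → ℂ) : Prop where
  pos : 0 < p
  isOpen : IsOpen U
  isPreconnected : IsPreconnected U
  nonempty : U.Nonempty
  analytic : ∀ i, AnalyticOnNhd ℂ (τ i) U
  im_pos : ∀ i, ∀ z ∈ U, 0 < (τ i z).im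
  nonconstant : ∀ i c, ∃ z ∈ U, τ i z ≠ c
  /-- two of the functions `j(τ_i)` are algebraically independent over `ℂ` -/
  independent : ∀ i k, i ≠ k → ∀ P : MvPolynomial (Fin 2) ℂ, P ≠ 0 →
    ∃ z ∈ U, MvPolynomial.eval ![j (τ i z), j (τ k z)] P ≠ 0

/-- The polynomials of degree at most `d` in each variable, all of whose coefficients are of the form `∑ ξ_i ι(c_i)`, where
the `c_i` are integers of the number field `F` all of whose conjugates have absolute value at most `H`. -/
def Admissible {σ : Type} {g : ℕ} (F : Type) [Field F] [NumberField F] (ι : F →+* ℂ) (ξ : Fin g → ℂ) (d : ℕ) (H : ℝ)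
    (P : MvPolynomial σ ℂ) : Prop :=
  (∀ y, P.degreeOf y ≤ d) ∧
    ∀ s, ∃ c : Fin g → 𝓞 F, (∀ i (φ : F →+* ℂ), ‖φ (c i)‖ ≤ H) ∧ P.coeff s = ∑ i, ξ i * ι (c i)

/-- The complex numbers `v` are good: every admissible polynomial takes at them a value which is at least `δ` times each of
its coefficients, and `π` and these numbers satisfy no relation `Q = 0` with a nonzero polynomial `Q` of degree at most `d`
in each variable whose coefficients are integers of `F` with conjugates of absolute value at most `H`. -/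
def Good {σ : Type} {g : ℕ} (F : Type) [Field F] [NumberField F] (ι : F →+* ℂ) (ξ : Fin g → ℂ) (d : ℕ)
    (H δ : ℝ) (v : σ → ℂ) : Prop :=
  (∀ P : MvPolynomial σ ℂ, Admissible F ι ξ d H P → ∀ s, δ * ‖P.coeff s‖ ≤ ‖MvPolynomial.aeval v P‖) ∧
  ∀ Q : MvPolynomial (Option σ) (𝓞 F), Q ≠ 0 → (∀ x, Q.degreeOf x ≤ d) →
    (∀ s (φ : F →+* ℂ), ‖φ ((Q.coeff s : 𝓞 F) : F)‖ ≤ H) →
    MvPolynomial.eval₂ (ι.comp (algebraMap (𝓞 F) F)) (fun o => o.elim (Real.pi : ℂ) v) Q ≠ 0

/-- The element `x` of `F` is a quotient of integers all of whose conjugates have absolute value at most `T`. -/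
def HeightLe (F : Type) [Field F] [NumberField F] (T : ℝ) (x : F) : Prop :=
  ∃ a b : 𝓞 F, b ≠ 0 ∧ (∀ φ : F →+* ℂ, ‖φ a‖ ≤ T ∧ ‖φ b‖ ≤ T) ∧ x = a / b

theorem j_eq {τ : ℂ} (h : 0 < τ.im) : j τ = Y776.jf τ := by
  have h1 : Y685.LC τ = lattice τ h := by
    rw [Y685.LC, UpperHalfPlane.ofComplex_apply_of_im_pos h]
    rfl
  rw [j, dif_pos h, Y776.jf, h1]

theorem j_ev {τ : ℂ} (h : 0 < τ.im) : j =ᶠ[nhds τ] Y776.jf := by
  filter_upwards [Y776.AxJ.isOpen_H.mem_nhds h] with σ hσ
  exact j_eq hσ

theorem dj_eq {τ : ℂ} (h : 0 < τ.im) : deriv j τ = deriv Y776.jf τ := (j_ev h).deriv_eq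

theorem dj_ev {τ : ℂ} (h : 0 < τ.im) : deriv j =ᶠ[nhds τ] deriv Y776.jf := by
  filter_upwards [Y776.AxJ.isOpen_H.mem_nhds h] with σ hσ
  exact dj_eq hσ

theorem ddj_eq {τ : ℂ} (h : 0 < τ.im) : deriv (deriv j) τ = deriv (deriv Y776.jf) τ := (dj_ev h).deriv_eq

theorem fmj {U : Set ℂ} {p : ℕ} {τ : Fin p → ℂ → ℂ} (h : Curve U τ) :
    Y776.AxJ.Fmj U τ (fun k : Fin 0 => k.elim0) where
  op := h.isOpen
  conn := h.isPreconnected
  ne := h.nonempty
  ta := h.analytic
  im := h.im_pos
  nc := h.nonconstant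
  ji := by
    intro i k hik P hP
    by_contra hne
    obtain ⟨z, hz, hz0⟩ := h.independent i k hik P hne
    apply hz0
    rw [← hP z hz]
    congr 2
    funext m
    fin_cases m
    · exact j_eq (h.im_pos i z hz)
    · exact j_eq (h.im_pos k z hz)
  wa := fun k => k.elim0
  wi := fun _ _ _ => Subsingleton.elim _ _

/-- the name of a function -/
def nm {p : ℕ} : Y776.AxJ.Nj p 0 → Name p := fun o => match o with
  | Sum.inl (i, 0) => Name.tau i
  | Sum.inl (i, 1) => Name.j i
  | Sum.inl (i, 2) => Name.dj i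
  | Sum.inl (i, 3) => Name.ddj i
  | Sum.inr (Sum.inl k) => k.elim0
  | Sum.inr (Sum.inr k) => k.elim0

/-- the function with a given name -/
def mn {p : ℕ} : Name p → Y776.AxJ.Nj p 0 := fun o => match o with
  | Name.tau i => Sum.inl (i, 0)
  | Name.j i => Sum.inl (i, 1)
  | Name.dj i => Sum.inl (i, 2)
  | Name.ddj i => Sum.inl (i, 3)

theorem nm_inj {p : ℕ} : Function.Injective (nm (p := p)) := by
  have h : Function.LeftInverse (mn (p := p)) nm := by
    rintro (⟨i, m⟩ | k | k)
    · fin_cases m <;> rfl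
    · exact k.elim0
    · exact k.elim0
  exact h.injective

theorem value_eq {U : Set ℂ} {p : ℕ} {τ : Fin p → ℂ → ℂ} (h : Curve U τ) {z : ℂ}
    (hz : z ∈ U) (o : Y776.AxJ.Nj p 0) :
    value τ z (nm o) = Y776.AxJ.yj τ (fun k : Fin 0 => k.elim0) o z := by
  rcases o with ⟨i, m⟩ | k | k
  · fin_cases m
    · rfl
    · exact j_eq (h.im_pos i z hz)
    · exact dj_eq (h.im_pos i z hz)
    · exact ddj_eq (h.im_pos i z hz)
  · exact k.elim0
  · exact k.elim0

/-- among `3 p` of the names at least `p` are basic -/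
theorem exists_basic {p : ℕ} (e : Fin (3 * p) → Name p) (he : Function.Injective e) :
    ∃ f : Fin p → Fin (3 * p), Function.Injective f ∧ ∀ i, Basic (e (f i)) := by
  classical
  let g : {k : Fin (3 * p) // ¬ Basic (e k)} → Fin p ⊕ Fin p := fun k =>
    match e k.1 with
    | Name.tau i => Sum.inl i
    | Name.j i => Sum.inl i
    | Name.dj i => Sum.inl i
    | Name.ddj i => Sum.inr i
  have hg : Function.Injective g := by
    rintro ⟨k, hk⟩ ⟨l, hl⟩ hkl
    apply Subtype.ext
    apply he
    simp only [g] at hkl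
    rcases hek : e k with i | i | i | i
    · exact absurd ⟨i, Or.inl hek⟩ hk
    · exact absurd ⟨i, Or.inr hek⟩ hk
    · rcases hel : e l with i' | i' | i' | i'
      · exact absurd ⟨i', Or.inl hel⟩ hl
      · exact absurd ⟨i', Or.inr hel⟩ hl
      · rw [hek, hel] at hkl
        rw [Sum.inl.inj hkl]
      · rw [hek, hel] at hkl
        exact absurd hkl (by simp)
    · rcases hel : e l with i' | i' | i' | i'
      · exact absurd ⟨i', Or.inl hel⟩ hl
      · exact absurd ⟨i', Or.inr hel⟩ hl
      · rw [hek, hel] at hkl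
        exact absurd hkl (by simp)
      · rw [hek, hel] at hkl
        rw [Sum.inr.inj hkl]
  have h1 := Fintype.card_le_of_injective g hg
  have h2 := Fintype.card_subtype_compl (fun k : Fin (3 * p) => Basic (e k))
  have h4 : Fintype.card {k : Fin (3 * p) // Basic (e k)} ≤ Fintype.card (Fin (3 * p)) :=
    Fintype.card_subtype_le _
  rw [Fintype.card_sum, Fintype.card_fin] at h1
  rw [Fintype.card_fin] at h2 h4
  have h3 : p ≤ Fintype.card {k : Fin (3 * p) // Basic (e k)} := by omega
  have h5 : Fintype.card (Fin p) ≤ Fintype.card {k : Fin (3 * p) // Basic (e k)} := by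
    rwa [Fintype.card_fin]
  obtain ⟨f⟩ := Function.Embedding.nonempty_of_card_le h5
  exact ⟨fun i => (f i).1, fun a b hab => f.injective (Subtype.ext hab), fun i => (f i).2⟩

/-- For `n` curves one can choose, for each `k`, `3 p_k` different functions `e_k` among the `4 p_k` functions of the
`k`-th curve, at least `p_k` of them among the functions `τ_i`, `j(τ_i)`, with the property stated above, for all compact
sets `K_k` contained in `U_k`, and all `m`, `g`, `d`, `A` and `δ > 0`. -/
theorem result (n : ℕ) (p : Fin n → ℕ) (U : Fin n → Set ℂ) (τ : ∀ k, Fin (p k) → ℂ → ℂ)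
    (hU : ∀ k, Curve (U k) (τ k)) :
    ∃ e : ∀ k, Fin (3 * p k) → Name (p k), (∀ k, Function.Injective (e k)) ∧
      (∀ k, ∃ f : Fin (p k) → Fin (3 * p k), Function.Injective f ∧ ∀ i, Basic (e k (f i))) ∧
      ∀ K : Fin n → Set ℂ, (∀ k, IsCompact (K k)) → (∀ k, K k ⊆ U k) → ∀ (m g d : ℕ) (A δ : ℝ), 0 < δ →
        ∃ (B : ℝ) (C : ℕ) (T₀ : ℝ), ∀ (F : Type) [Field F] [NumberField F], Module.finrank ℚ F ≤ m →
          ∀ (ι : F →+* ℂ) (ξ : Fin g → ℂ) (T : ℝ), T₀ ≤ T → ∀ X : Fin n → Finset F,
            (∀ k, ∀ x ∈ X k, ι x ∈ K k ∧ HeightLe F T x) → (∀ k, ∀ x ∈ X k, ∀ y ∈ X k, ‖ι x - ι y‖ ≤ T ^ (-δ)) →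
            (({x : Fin n → F | (∀ k, x k ∈ X k) ∧ ¬ Good F ι ξ d (T ^ A) (T ^ (-B))
              (fun y : Σ k, Fin (3 * p k) => value (τ y.1) (ι (x y.1)) (e y.1 y.2))}.ncard : ℝ) ≤
              C * ∑ k, ∏ i ∈ Finset.univ.erase k, ((X i).card : ℝ)) ∧
            ((∀ k, C < (X k).card) → ∃ x : Fin n → F, (∀ k, x k ∈ X k) ∧ Good F ι ξ d (T ^ A) (T ^ (-B))
              (fun y : Σ k, Fin (3 * p k) => value (τ y.1) (ι (x y.1)) (e y.1 y.2))) := by
  classical
  have hsub : ∀ k, ∃ e : Fin (3 * p k) → Y776.AxJ.Nj (p k) 0, Function.Injective e ∧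
      ∀ t ∈ U k, Y124.LocInd (fun i => Y776.AxJ.yj (τ k) (fun k : Fin 0 => k.elim0) (e i)) t := by
    intro k
    obtain ⟨e, he, hL⟩ := Y776.AxJ.exists_loc (fmj (hU k)) (hU k).pos
    exact ⟨e, he, hL⟩
  choose e he hL using hsub
  have hinj : ∀ k, Function.Injective fun i : Fin (3 * p k) => nm (e k i) := fun k => nm_inj.comp (he k)
  refine ⟨fun k i => nm (e k i), hinj, fun k => exists_basic _ (hinj k), ?_⟩
  intro K hK hKU m g d A δ hδ
  have hev : ∀ (k : Fin n) (i : Fin (3 * p k)), ∀ t ∈ U k,
      (fun z => value (τ k) z (nm (e k i))) =ᶠ[nhds t]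
        Y776.AxJ.yj (τ k) (fun k : Fin 0 => k.elim0) (e k i) := by
    intro k i t ht
    filter_upwards [(hU k).isOpen.mem_nhds ht] with z hz
    exact value_eq (hU k) hz _
  exact Pool.Agent.R349.Gen.shortS m n g d (κ := fun k => Fin (3 * p k)) (fun k => (hU k).isOpen)
    (fun k => (hU k).isPreconnected) (fun k i z => value (τ k) z (nm (e k i)))
    (fun k i t ht => (Y776.AxJ.yj_an (fmj (hU k)) (e k i) t ht).congr (hev k i t ht).symm)
    (fun k t ht => by
      intro P hP
      refine hL k t ht P ?_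
      have hall : ∀ᶠ z in nhds t, ∀ i : Fin (3 * p k), value (τ k) z (nm (e k i)) =
          Y776.AxJ.yj (τ k) (fun k : Fin 0 => k.elim0) (e k i) z := by
        rw [Filter.eventually_all]
        exact fun i => hev k i t ht
      filter_upwards [hP, hall] with z hz hz'
      rw [← hz]
      congr 2
      funext o
      cases o with
      | none => rfl
      | some i => exact (hz' i).symm) K hK hKU A δ hδ

end Pool.Agent.Results.MP_47914d_nt.SmallDiscs
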